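import Pool.Agent.Run7.h473.MD.Iface3
import Pool.Agent.Run7.h763.MD.REF
import Pool.Agent.Run7.h24.MD.BIG

/-! # Project MD (helper473), piece ASYG (helper299): smoothed moments -/

set_option autoImplicit false

namespace Pool.Agent.Run7.h299.MD

open Complex Filter Topology MeasureTheory Set
open Pool.Agent.Q48.MDS Pool.Agent.N879.QM Pool.Agent.Run7.h473.MD Pool.Agent.Run7.h763.MD

noncomputable section

/-- the extension, on a convex domain which contains the points with large first coordinate -/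
theorem setup (hEQ : S_EQ) (hBIG : Pool.Agent.Run7.h473.MD.S_BIG) {k M : ℕ} (hM : 1 ≤ M)
    {p : Fin (k + 1) → ℝ} (hp : ContinuesTo k M p) :
    ∃ (W : Set (Fin (k + 1) → ℝ)) (G : (Fin (k + 1) → ℂ) → ℂ), IsOpen W ∧ Convex ℝ W ∧
      orth (k + 1) ⊆ W ∧ p ∈ W ∧
      {p : Fin (k + 1) → ℝ | (k : ℝ) + 1 < p 0 ∧ ∀ j : Fin k, 0 < p j.succ} ⊆ W ∧ Tempered W G ∧
      EqOn G (fun z => Hs k M z * PP k z)
        (tube {p : Fin (k + 1) → ℝ | (k : ℝ) + 1 < p 0 ∧ ∀ j : Fin k, 0 < p j.succ}) := by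
  obtain ⟨Ω, hΩo, hΩc, hsub, hpΩ, G₀, hG₀, hGeq⟩ := hp
  obtain ⟨G₁, hG₁, hGG⟩ := bochner hΩo hΩc hG₀
  set W₁ := convexHull ℝ Ω with hW₁
  have hΩW : Ω ⊆ W₁ := subset_convexHull ℝ Ω
  have ho₁ : IsOpen W₁ := hΩo.convexHull
  have hc₁ : Convex ℝ W₁ := convex_convexHull ℝ Ω
  have hs₁ : orth (k + 1) ⊆ W₁ := hsub.trans hΩW
  set V := {p : Fin (k + 1) → ℝ | (k : ℝ) + 1 < p 0 ∧ ∀ j : Fin k, 0 < p j.succ} with hV
  have hVo : IsOpen V := isOpen_V k
  have hVc : Convex ℝ V := convex_V k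
  have hH : Tempered V (fun z => Hs k M z * PP k z) := temp_mul (hBIG k M) (temp_PP k V)
  -- a common point of the orthant and `V`
  have hcom : (orth (k + 1) ∩ V).Nonempty := by
    refine ⟨fun _ => (k : ℝ) + 2, fun i => ?_, ?_, fun i => ?_⟩
    · have : (0 : ℝ) ≤ k := Nat.cast_nonneg k
      show (1 : ℝ) < (k : ℝ) + 2
      linarith
    · show (k : ℝ) + 1 < (k : ℝ) + 2
      linarith
    · have : (0 : ℝ) ≤ k := Nat.cast_nonneg k
      show (0 : ℝ) < (k : ℝ) + 2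
      linarith
  have he₁ : EqOn G₁ (fun z => Hs k M z * PP k z) (tube (W₁ ∩ V)) := by
    refine eqOn_tube ((isOpen_orth _).inter hVo) hcom (ho₁.inter hVo) (hc₁.inter hVc)
      (inter_subset_inter_left _ hs₁) (hG₁.1.mono fun z hz => hz.1) (hH.1.mono fun z hz => hz.2) (fun z hz => ?_)
    rw [hGG (hsub hz.1), hGeq hz.1]
    exact hEQ k M hM hz.1
  obtain ⟨G₂, hG₂, hG₂₁, hG₂V⟩ := tempered_glue ho₁ hVo hG₁ hH he₁
  obtain ⟨x₀, hx₀⟩ := hcom
  have hconn : IsConnected (W₁ ∪ V) :=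
    ⟨⟨x₀, Or.inr hx₀.2⟩, IsPreconnected.union x₀ (hs₁ hx₀.1) hx₀.2 hc₁.isPreconnected hVc.isPreconnected⟩
  obtain ⟨G, hG, hGG₂⟩ := bochner (ho₁.union hVo) hconn hG₂
  set W := convexHull ℝ (W₁ ∪ V) with hW
  have hUW : W₁ ∪ V ⊆ W := subset_convexHull ℝ _
  have hWo : IsOpen W := (ho₁.union hVo).convexHull
  have hWc : Convex ℝ W := convex_convexHull ℝ _
  have hWorth : orth (k + 1) ⊆ W := (hs₁.trans subset_union_left).trans hUW
  have hpW : p ∈ W := hUW (Or.inl (hΩW hpΩ))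
  have hVW : V ⊆ W := subset_union_right.trans hUW
  have hGV : EqOn G (fun z => Hs k M z * PP k z) (tube V) := by
    intro z hz
    rw [hGG₂ (show z ∈ tube (W₁ ∪ V) from Or.inr hz), hG₂V hz]
  exact ⟨W, G, hWo, hWc, hWorth, hpW, hVW, hG, hGV⟩

/-- the product over the nonempty sets -/
def QQ (k : ℕ) (z : Fin (k + 1) → ℂ) : ℂ :=
  ∏ J ∈ (Finset.univ : Finset (Finset (Fin k))).erase ∅, (sigma J z - 1)

theorem PP_eq (k : ℕ) (z : Fin (k + 1) → ℂ) : PP k z = (z 0 - 1) * QQ k z := by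
  classical
  unfold PP QQ
  rw [← Finset.mul_prod_erase Finset.univ _ (Finset.mem_univ (∅ : Finset (Fin k)))]
  simp [sigma]

theorem QQ_diff (k : ℕ) : Differentiable ℂ (QQ k) := by
  unfold QQ
  refine Pool.Agent.Run7.h24.MD.diff_prod _ (fun (J : Finset (Fin k)) (z : Fin (k + 1) → ℂ) => sigma J z - 1)
    fun J _ => ?_
  unfold sigma
  fun_prop

theorem fac_ge {k : ℕ} {κ : ℝ} (hκ : 0 < κ) {z : Fin (k + 1) → ℂ} (h0 : 1 - κ / 2 ≤ (z 0).re)
    (h : ∀ j : Fin k, 1 / 2 + κ ≤ (z j.succ).re) {J : Finset (Fin k)} (hJ : J ≠ ∅) :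
    κ / 2 ≤ ‖sigma J z - 1‖ := by
  have h1 : (sigma J z - 1).re = (z 0).re - 1 + ∑ j ∈ J, ((z j.succ).re - 1 / 2) := by
    unfold sigma
    rw [Finset.sum_sub_distrib, Finset.sum_const, nsmul_eq_mul]
    have e : ((J.card : ℂ) / 2).re = (J.card : ℝ) / 2 := by
      rw [show ((J.card : ℂ) / 2) = (((J.card : ℝ) / 2 : ℝ) : ℂ) by push_cast; ring, Complex.ofReal_re]
    rw [Complex.sub_re, Complex.add_re, Complex.sub_re, Complex.re_sum, e, Complex.one_re]
    ring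
  have h2 : (J.card : ℝ) * κ ≤ ∑ j ∈ J, ((z j.succ).re - 1 / 2) := by
    rw [← nsmul_eq_mul]
    exact Finset.card_nsmul_le_sum _ _ _ fun j _ => by linarith [h j]
  have h3 : (1 : ℝ) ≤ J.card := by
    exact_mod_cast Finset.card_pos.2 (Finset.nonempty_iff_ne_empty.2 hJ)
  have h4 : κ / 2 ≤ (sigma J z - 1).re := by
    rw [h1]
    nlinarith
  exact h4.trans ((le_abs_self _).trans (Complex.abs_re_le_norm _))

theorem QQ_ge {k : ℕ} {κ : ℝ} (hκ : 0 < κ) {z : Fin (k + 1) → ℂ} (h0 : 1 - κ / 2 ≤ (z 0).re)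
    (h : ∀ j : Fin k, 1 / 2 + κ ≤ (z j.succ).re) :
    (κ / 2) ^ ((Finset.univ : Finset (Finset (Fin k))).erase ∅).card ≤ ‖QQ k z‖ := by
  unfold QQ
  rw [norm_prod, ← Finset.prod_const]
  exact Finset.prod_le_prod (fun J _ => by positivity) fun J hJ =>
    fac_ge hκ h0 h (Finset.ne_of_mem_erase hJ)

theorem QQ_ne {k : ℕ} {κ : ℝ} (hκ : 0 < κ) {z : Fin (k + 1) → ℂ} (h0 : 1 - κ / 2 ≤ (z 0).re)
    (h : ∀ j : Fin k, 1 / 2 + κ ≤ (z j.succ).re) : QQ k z ≠ 0 := by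
  have h1 := QQ_ge hκ h0 h
  have h2 : 0 < (κ / 2) ^ ((Finset.univ : Finset (Finset (Fin k))).erase ∅).card := by positivity
  exact norm_pos_iff.1 (h2.trans_le h1)

open Classical in
/-- the coefficients -/
def aa (k M : ℕ) (s : Fin k → ℂ) (d : ℕ) : ℂ := if Is 1 d then vl 1 d M * ∏ j : Fin k, LL 1 d (s j) else 0

theorem aa_zero (k M : ℕ) (s : Fin k → ℂ) : aa k M s 0 = 0 := by
  have h0 : ¬ Is 1 0 := fun h => by
    have := h.1
    omega
  unfold aa
  rw [if_neg h0]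

theorem aa_summable (hLBD : S_LBD) (k M : ℕ) (s : Fin k → ℂ) (hs : ∀ j, 0 < (s j).re) :
    Summable (fun d : ℕ => ‖aa k M s d‖ * (d : ℝ) ^ (-((k : ℝ) + 2))) := by
  have hS : Summable (fun d : ℕ => (∏ j : Fin k, ‖s j‖ / (s j).re) * (d : ℝ) ^ (-(2 : ℝ))) :=
    (Real.summable_nat_rpow.2 (by norm_num)).mul_left _
  have hB : 0 ≤ ∏ j : Fin k, ‖s j‖ / (s j).re :=
    Finset.prod_nonneg fun j _ => div_nonneg (norm_nonneg _) (hs j).le
  refine Summable.of_nonneg_of_le (fun d => by positivity) (fun d => ?_) hS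
  unfold aa
  by_cases h : Is 1 d
  · rw [if_pos h]
    have hd0 : (0 : ℝ) < d := by
      have := h.1
      exact_mod_cast (by omega : 0 < d)
    have h1 : ‖vl 1 d M * ∏ j : Fin k, LL 1 d (s j)‖ ≤ (d : ℝ) ^ (k : ℝ) * ∏ j : Fin k, ‖s j‖ / (s j).re := by
      rw [norm_mul, norm_prod]
      have h2 : ‖vl 1 d M‖ ≤ 1 := DirichletCharacter.norm_le_one _ _
      have h3 : ∏ j : Fin k, ‖LL 1 d (s j)‖ ≤ ∏ j : Fin k, (d * (‖s j‖ / (s j).re)) :=
        Finset.prod_le_prod (fun _ _ => norm_nonneg _) fun j _ => by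
          rw [← mul_div_assoc]
          exact (hLBD d h).2 (s j) (hs j)
      rw [Finset.prod_mul_distrib, Finset.prod_const, Finset.card_univ, Fintype.card_fin] at h3
      rw [Real.rpow_natCast]
      have h4 : 0 ≤ ∏ j : Fin k, ‖LL 1 d (s j)‖ := Finset.prod_nonneg fun _ _ => norm_nonneg _
      calc ‖vl 1 d M‖ * ∏ j : Fin k, ‖LL 1 d (s j)‖ ≤ 1 * ∏ j : Fin k, ‖LL 1 d (s j)‖ := by gcongr
        _ = ∏ j : Fin k, ‖LL 1 d (s j)‖ := one_mul _
        _ ≤ _ := h3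
    calc ‖vl 1 d M * ∏ j : Fin k, LL 1 d (s j)‖ * (d : ℝ) ^ (-((k : ℝ) + 2)) ≤
        ((d : ℝ) ^ (k : ℝ) * ∏ j : Fin k, ‖s j‖ / (s j).re) * (d : ℝ) ^ (-((k : ℝ) + 2)) := by gcongr
      _ = (∏ j : Fin k, ‖s j‖ / (s j).re) * ((d : ℝ) ^ (k : ℝ) * (d : ℝ) ^ (-((k : ℝ) + 2))) := by ring
      _ = (∏ j : Fin k, ‖s j‖ / (s j).re) * (d : ℝ) ^ (-(2 : ℝ)) := by
          rw [← Real.rpow_add hd0]
          congr 2
          ring
  · rw [if_neg h, norm_zero, zero_mul]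
    positivity

/-- the point `(w, s + ζ)` -/
def pp {k : ℕ} (s : Fin k → ℂ) (w ζ : ℂ) : Fin (k + 1) → ℂ := Fin.cons w (fun j => s j + ζ)

theorem pp_diff_w {k : ℕ} (s : Fin k → ℂ) (ζ : ℂ) : Differentiable ℂ (fun w => pp s w ζ) := by
  rw [differentiable_pi]
  intro i
  refine Fin.cases ?_ (fun j => ?_) i
  · simp only [pp, Fin.cons_zero]
    fun_prop
  · simp only [pp, Fin.cons_succ]
    fun_prop

theorem pp_diff_z {k : ℕ} (s : Fin k → ℂ) (w : ℂ) : Differentiable ℂ (fun ζ => pp s w ζ) := by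
  rw [differentiable_pi]
  intro i
  refine Fin.cases ?_ (fun j => ?_) i
  · simp only [pp, Fin.cons_zero]
    fun_prop
  · simp only [pp, Fin.cons_succ]
    fun_prop

theorem t_ASYG (hSHI : S_SHI) (hDOM : S_DOM) (hEQ : S_EQ) (hBIG : Pool.Agent.Run7.h473.MD.S_BIG)
    (hLBD : S_LBD) : S_ASYG := by
  intro k M s hM hs hsum
  -- the point
  obtain ⟨p, hp⟩ : ∃ p : Fin (k + 1) → ℝ, p = Fin.cons 1 (fun j => (s j).re) := ⟨_, rfl⟩
  have hp0 : p 0 = 1 := by rw [hp]; rfl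
  have hps : ∀ j : Fin k, p j.succ = (s j).re := fun j => by rw [hp]; rfl
  have hpD : ContinuesTo k M p := by
    refine hDOM k M p hM (by rw [hp0]) (fun j => by rw [hps]; exact hs j) ?_
    simp_rw [hps]
    exact hsum
  obtain ⟨W, G, hWo, hWc, hWorth, hpW, hVW, hG, hGV⟩ := setup hEQ hBIG hM hpD
  obtain ⟨κ, hκ, hκs⟩ : ∃ κ : ℝ, 0 < κ ∧ ∀ j, 1 / 2 + κ ≤ (s j).re := by
    obtain ⟨e, he, h⟩ := Pool.Agent.Run7.h24.MD.fin_pos (fun j => (s j).re - 1 / 2)
      (fun j => by linarith [hs j])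
    exact ⟨e, he, fun j => by linarith [h j]⟩
  obtain ⟨ε, hε, hball⟩ := Metric.isOpen_iff.1 hWo p hpW
  obtain ⟨η, hη0, hη1, hη2, hη3⟩ : ∃ η : ℝ, 0 < η ∧ 2 * η < ε ∧ η ≤ κ / 8 ∧ η ≤ 1 / 8 := by
    refine ⟨min (ε / 4) (min (κ / 8) (1 / 8)), by positivity, ?_, ?_, ?_⟩
    · have := min_le_left (ε / 4) (min (κ / 8) (1 / 8))
      linarith
    · exact (min_le_right _ _).trans (min_le_left _ _)
    · exact (min_le_right _ _).trans (min_le_right _ _)
  -- the lowest point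
  obtain ⟨q, hq⟩ : ∃ q : Fin (k + 1) → ℝ, q = Fin.cons (1 - 2 * η) (fun j => (s j).re - η) := ⟨_, rfl⟩
  have hq0 : q 0 = 1 - 2 * η := by rw [hq]; rfl
  have hqs : ∀ j : Fin k, q j.succ = (s j).re - η := fun j => by rw [hq]; rfl
  have hqW : q ∈ W := by
    apply hball
    rw [Metric.mem_ball, dist_pi_lt_iff hε]
    intro i
    refine Fin.cases ?_ (fun j => ?_) i
    · rw [hq0, hp0, Real.dist_eq, abs_lt]
      constructor <;> linarith
    · rw [hqs, hps, Real.dist_eq, abs_lt]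
      constructor <;> linarith
  have hup : ∀ z : Fin (k + 1) → ℂ, 1 - 2 * η ≤ (z 0).re → (∀ j : Fin k, (s j).re - η ≤ (z j.succ).re) →
      (fun i => (z i).re) ∈ W := by
    intro z h0 h1
    refine mem_of_ge hWo hWc hWorth hqW fun i => ?_
    refine Fin.cases ?_ (fun j => ?_) i
    · rw [hq0]
      exact h0
    · rw [hqs]
      exact h1 j
  have hκ' : 0 < 3 * κ / 4 := by positivity
  have hre : ∀ (ζ : ℂ), -η < ζ.re → ∀ (w : ℂ) (j : Fin k), 1 / 2 + 3 * κ / 4 ≤ (pp s w ζ j.succ).re := by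
    intro ζ hζ w j
    show 1 / 2 + 3 * κ / 4 ≤ (s j + ζ).re
    rw [Complex.add_re]
    linarith [hκs j]
  have hre' : ∀ (ζ : ℂ), -η < ζ.re → ∀ (w : ℂ) (j : Fin k), (s j).re - η ≤ (pp s w ζ j.succ).re := by
    intro ζ hζ w j
    show (s j).re - η ≤ (s j + ζ).re
    rw [Complex.add_re]
    linarith
  have hne : ∀ (w ζ : ℂ), 1 - 2 * η ≤ w.re → -η < ζ.re → QQ k (pp s w ζ) ≠ 0 := by
    intro w ζ hw hζ
    refine QQ_ne hκ' ?_ (hre ζ hζ w)
    show 1 - 3 * κ / 4 / 2 ≤ w.re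
    linarith
  refine ⟨η, fun ζ => G (pp s 1 ζ) / QQ k (pp s 1 ζ), hη0, ?_, ?_⟩
  · refine DifferentiableOn.div ?_ ?_ ?_
    · refine hG.1.comp (t := tube W) (pp_diff_z s 1).differentiableOn fun ζ hζ => ?_
      refine hup _ ?_ (hre' ζ hζ 1)
      show 1 - 2 * η ≤ (1 : ℂ).re
      rw [Complex.one_re]
      linarith
    · exact ((QQ_diff k).comp (pp_diff_z s 1)).differentiableOn
    · intro ζ hζ
      refine hne 1 ζ ?_ hζ
      rw [Complex.one_re]
      linarith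
  · intro ζ hζ
    have hζ0 : -η < ζ.re := hζ
    have hpos : ∀ j, 0 < ((fun j => s j + ζ) j).re := by
      intro j
      have := hre ζ hζ0 0 j
      have e : (pp s 0 ζ j.succ).re = (s j + ζ).re := rfl
      rw [e] at this
      show 0 < (s j + ζ).re
      linarith
    have g1 : DifferentiableOn ℂ (fun w => G (pp s w ζ) / QQ k (pp s w ζ))
        {w | 1 - 2 * η < w.re ∧ w.re < (k : ℝ) + 3} := by
      refine DifferentiableOn.div ?_ ?_ ?_
      · refine hG.1.comp (t := tube W) (pp_diff_w s ζ).differentiableOn fun w hw => ?_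
        refine hup _ ?_ (hre' ζ hζ0 w)
        exact hw.1.le
      · exact ((QQ_diff k).comp (pp_diff_w s ζ)).differentiableOn
      · intro w hw
        exact hne w ζ hw.1.le hζ0
    have g2 : ∃ (C : ℝ) (N : ℕ), ∀ w : ℂ, 1 - η ≤ w.re → w.re ≤ (k : ℝ) + 2 →
        ‖G (pp s w ζ) / QQ k (pp s w ζ)‖ ≤ C * (1 + |w.im|) ^ N := by
      have hcc : Continuous (fun x : ℝ => (Fin.cons x (fun j => (s j + ζ).re) : Fin (k + 1) → ℝ)) := by
        refine continuous_pi fun i => ?_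
        refine Fin.cases ?_ (fun j => ?_) i
        · simp only [Fin.cons_zero]
          fun_prop
        · simp only [Fin.cons_succ]
          fun_prop
      have hK : IsCompact ((fun x : ℝ => (Fin.cons x (fun j => (s j + ζ).re) : Fin (k + 1) → ℝ)) ''
          Icc (1 - η) ((k : ℝ) + 2)) := isCompact_Icc.image hcc
      have hKW : (fun x : ℝ => (Fin.cons x (fun j => (s j + ζ).re) : Fin (k + 1) → ℝ)) ''
          Icc (1 - η) ((k : ℝ) + 2) ⊆ W := by
        rintro _ ⟨x, hx, rfl⟩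
        refine mem_of_ge hWo hWc hWorth hqW fun i => ?_
        refine Fin.cases ?_ (fun j => ?_) i
        · rw [hq0]
          show 1 - 2 * η ≤ x
          linarith [hx.1]
        · rw [hqs]
          show (s j).re - η ≤ (s j + ζ).re
          rw [Complex.add_re]
          linarith
      obtain ⟨C, N, hCN⟩ := hG.2 _ hKW hK
      obtain ⟨n, hn⟩ : ∃ n, n = ((Finset.univ : Finset (Finset (Fin k))).erase ∅).card := ⟨_, rfl⟩
      obtain ⟨T, hT⟩ : ∃ T : ℝ, T = ‖fun j : Fin k => (s j + ζ).im‖ := ⟨_, rfl⟩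
      have hT0 : 0 ≤ T := by rw [hT]; exact norm_nonneg _
      have hc0 : 0 < (3 * κ / 4 / 2) ^ n := by positivity
      refine ⟨|C| * (1 + T) ^ N / (3 * κ / 4 / 2) ^ n, N, fun w hw1 hw2 => ?_⟩
      have h1 : (fun i => (pp s w ζ i).re) ∈
          (fun x : ℝ => (Fin.cons x (fun j => (s j + ζ).re) : Fin (k + 1) → ℝ)) '' Icc (1 - η) ((k : ℝ) + 2) := by
        refine ⟨w.re, ⟨hw1, hw2⟩, ?_⟩
        funext i
        refine Fin.cases ?_ (fun j => ?_) i
        · rfl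
        · rfl
      have h2 := hCN _ h1
      have h3 : 1 + ‖fun i => (pp s w ζ i).im‖ ≤ (1 + T) * (1 + |w.im|) := by
        have h4 : ‖fun i => (pp s w ζ i).im‖ ≤ T + |w.im| := by
          rw [pi_norm_le_iff_of_nonneg (by positivity)]
          intro i
          refine Fin.cases ?_ (fun j => ?_) i
          · show ‖w.im‖ ≤ T + |w.im|
            rw [Real.norm_eq_abs]
            linarith
          · show ‖(s j + ζ).im‖ ≤ T + |w.im|
            have h5 := norm_le_pi_norm (fun j : Fin k => (s j + ζ).im) j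
            rw [← hT] at h5
            exact h5.trans (by linarith [abs_nonneg w.im])
        nlinarith [mul_nonneg hT0 (abs_nonneg w.im)]
      have h4 : ‖G (pp s w ζ)‖ ≤ |C| * ((1 + T) ^ N * (1 + |w.im|) ^ N) := by
        rw [← mul_pow]
        have h5 : 0 ≤ 1 + ‖fun i => (pp s w ζ i).im‖ := by positivity
        calc ‖G (pp s w ζ)‖ ≤ C * (1 + ‖fun i => (pp s w ζ i).im‖) ^ N := h2
          _ ≤ |C| * (1 + ‖fun i => (pp s w ζ i).im‖) ^ N := by
              have := le_abs_self C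
              gcongr
          _ ≤ |C| * ((1 + T) * (1 + |w.im|)) ^ N := by gcongr
      have h5 : (3 * κ / 4 / 2) ^ n ≤ ‖QQ k (pp s w ζ)‖ := by
        rw [hn]
        refine QQ_ge hκ' ?_ (hre ζ hζ0 w)
        show 1 - 3 * κ / 4 / 2 ≤ w.re
        linarith
      rw [norm_div]
      calc ‖G (pp s w ζ)‖ / ‖QQ k (pp s w ζ)‖ ≤ (|C| * ((1 + T) ^ N * (1 + |w.im|) ^ N)) / (3 * κ / 4 / 2) ^ n := by
            gcongr
        _ = _ := by ring
    have g3 : ∀ w : ℂ, w.re = (k : ℝ) + 2 → G (pp s w ζ) / QQ k (pp s w ζ) =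
        (w - 1) * ∑' d : ℕ, aa k M (fun j => s j + ζ) d * (d : ℂ) ^ (-w) := by
      intro w hw
      have hV : pp s w ζ ∈ tube {p : Fin (k + 1) → ℝ | (k : ℝ) + 1 < p 0 ∧ ∀ j : Fin k, 0 < p j.succ} := by
        refine ⟨?_, fun j => hpos j⟩
        show (k : ℝ) + 1 < w.re
        rw [hw]
        linarith
      have h1 := hGV hV
      have h2 : QQ k (pp s w ζ) ≠ 0 := by
        refine hne w ζ ?_ hζ0
        rw [hw]
        have : (0 : ℝ) ≤ k := Nat.cast_nonneg k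
        linarith
      have h3 : Hs k M (pp s w ζ) = ∑' d : ℕ, aa k M (fun j => s j + ζ) d * (d : ℂ) ^ (-w) := by
        unfold Hs cd aa
        refine tsum_congr fun d => ?_
        by_cases hd : Is 1 d
        · rw [if_pos hd, if_pos hd]
          have e0 : pp s w ζ 0 = w := rfl
          have e1 : ∀ j : Fin k, pp s w ζ j.succ = s j + ζ := fun j => rfl
          simp_rw [e0, e1]
          ring
        · rw [if_neg hd, if_neg hd, zero_mul]
      show G (pp s w ζ) / QQ k (pp s w ζ) = _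
      rw [h1]
      show Hs k M (pp s w ζ) * PP k (pp s w ζ) / QQ k (pp s w ζ) = _
      rw [PP_eq, h3]
      have e0 : pp s w ζ 0 = w := rfl
      rw [e0]
      field_simp
    have hk0 : (0 : ℝ) ≤ k := Nat.cast_nonneg k
    obtain ⟨C, hC⟩ := hSHI (aa k M (fun j => s j + ζ)) ((k : ℝ) + 2) (1 - η) (1 - 2 * η) ((k : ℝ) + 3)
      (fun w => G (pp s w ζ) / QQ k (pp s w ζ)) (aa_zero k M _) (by linarith) (by linarith) (by linarith)
      (by linarith) (by linarith) (aa_summable hLBD k M _ hpos) g1 g2 g3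
    refine ⟨η, C, hη0, fun X hX => ?_⟩
    have h1 := hC X hX
    have h2 : asum k M (fun j => s j + ζ) X =
        ∑' d : ℕ, aa k M (fun j => s j + ζ) d * ((Real.exp (-(d / X)) : ℝ) : ℂ) := by
      unfold asum aa
      refine tsum_congr fun d => ?_
      rw [ite_mul, zero_mul]
    rw [h2]
    exact h1

end

end Pool.Agent.Run7.h299.MD
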